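import Pool.Agent.CarQ.LowerAll

/-!
# A lower bound for the crossing angular resolution of hypercubes

For `d ≥ 5` there are drawings of `Q_d` whose crossing angles are at least `π / ⌈(d - 1) / 3⌉ - δ`,
for every `δ > 0`; so the crossing angular resolution of `Q_d` is at least `π / ⌈(d - 1) / 3⌉`.
-/

namespace Pool.Agent.Results.MP_e830f9_co.LowerBound

open Pool.Agent.CarQ

theorem result (d : ℕ) (hd : 5 ≤ d) : Real.pi / (((d + 1) / 3 : ℕ) : ℝ) ≤ car (cube d) :=
  pi_div_le_car (by omega) (by omega) (by omega)

end Pool.Agent.Results.MP_e830f9_co.LowerBound
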