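import Pool.Agent.CarQ.Upper
import Pool.Agent.CarQ.Lower

/-!
# The hypercubes with crossing angular resolution `π / 2`

For `d ≥ 4` the hypercube `Q_d` has crossing angular resolution `π / 2` exactly when `d ≤ 7`.
-/

namespace Pool.Agent.Results.MP_e830f9_co.RightAngles

open Pool.Agent.CarQ

theorem result (d : ℕ) (hd : 4 ≤ d) : car (cube d) = Real.pi / 2 ↔ d ≤ 7 := by
  refine ⟨fun h => ?_, fun h => car_of_le_seven h (by omega)⟩
  by_contra h8
  have h8' : (8 : ℝ) ≤ d := by exact_mod_cast (by omega : 8 ≤ d)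
  have h1 := car_cube_le d hd
  rw [h] at h1
  have hpi := Real.pi_pos
  have hd0 : (0 : ℝ) < d := by linarith
  rw [le_div_iff₀ hd0] at h1
  have h2 : 0 < 8 / (2 : ℝ) ^ d * Real.pi := by positivity
  nlinarith [mul_le_mul_of_nonneg_left h8' hpi.le]

end Pool.Agent.Results.MP_e830f9_co.RightAngles
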