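import Pool.Agent.CarQ.Upper

/-!
# Upper bound for the crossing angular resolution of hypercubes

`car(Q_d) ≤ (4 - 8 / 2 ^ d) π / d` for all `d ≥ 4`.
-/

namespace Pool.Agent.Results.MP_e830f9_co.UpperBound

open Pool.Agent.CarQ

theorem result (d : ℕ) (hd : 4 ≤ d) : car (cube d) ≤ (4 - 8 / 2 ^ d) * Real.pi / d :=
  car_cube_le d hd

end Pool.Agent.Results.MP_e830f9_co.UpperBound
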